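import Pool.Agent.U475.PL.All
import Pool.Agent.U475.PL.Two

/-!
# Differences of almost primes and the elements of an arbitrary dense set of primes: the sharp number of exceptions

Let `A` be an arbitrary set of primes `p ≤ X` which contains a positive proportion of them. With at most
`K log X / log log X` exceptions all the integers `1 ≤ h ≤ 2 X` are differences `h = m s - p` for many elements `p` of
`A`, where `m` is at most a power of `log X` and `s` has at most two prime factors, both larger than `X ^ (1 / 7)`. This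
number of exceptions is sharp: every set of at most `c log X / log log X` positive integers is exceptional for some
set of almost all the primes up to `X`.
-/

set_option autoImplicit false

open Finset

namespace Pool.Agent.Results.MP_70e905_nt.DenseSetsSharpExceptions

/-- `s > 1`, and all the prime factors of `s` exceed `X ^ (1 / 7)` -/
def Rough (X s : ℕ) : Prop := 1 < s ∧ ∀ q : ℕ, q.Prime → q ∣ s → (X : ℝ) ^ (1 / 7 : ℝ) < q

/-- `s` is rough and has one or two prime factors, counted with multiplicity -/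
def AlmostPrime (X s : ℕ) : Prop := Rough X s ∧ s.primeFactorsList.length ≤ 2

/-- `h = m s - p` with a positive integer `m ≤ (log X) ^ U` and an `s` with the property `S` -/
def Diff (X U : ℕ) (S : ℕ → Prop) (h p : ℕ) : Prop :=
  ∃ m s : ℕ, 1 ≤ m ∧ (m : ℝ) ≤ Real.log X ^ U ∧ S s ∧ h + p = m * s

/-- the integers `1 ≤ h ≤ 2 X` for which fewer than `c |A| log log X / log X` elements `p` of `A` satisfy
`h = m s - p` with `m ≤ (log X) ^ U` and an almost prime `s` -/
def exceptional (X U : ℕ) (c : ℝ) (A : Set ℕ) : Set ℕ :=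
  {h : ℕ | 1 ≤ h ∧ h ≤ 2 * X ∧ (({p : ℕ | p ∈ A ∧ Diff X U (AlmostPrime X) h p}.ncard : ℕ) : ℝ) <
    c * (Real.log (Real.log X) / Real.log X) * (A.ncard : ℝ)}

/-- **(1)** For every `δ > 0` there are `c > 0`, `K` and `U` such that for all `X ≥ 3` and every set `A` of primes
`p ≤ X` with at least `δ X / log X` elements: for all but at most `K log X / log log X` of the integers
`1 ≤ h ≤ 2 X`, at least `c |A| log log X / log X` elements `p` of `A` satisfy `h = m s - p`, `1 ≤ m ≤ (log X) ^ U`, where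
`s > 1` has at most two prime factors, both larger than `X ^ (1 / 7)`; and for EVERY `1 ≤ h ≤ 2 X` at most
`C |A| log log X / log X` elements `p` of `A` do.
**(2)** For all `U` and `η > 0` there are `c > 0` and `X₀` such that for all `X ≥ X₀` and EVERY set `H` of at most
`c log X / log log X` integers `1 ≤ h ≤ 2 X` there is a set `A` which contains at least the proportion
`1 - η` of the primes up to `X`, such that `h = m s - p` is impossible for all `h ∈ H`, `p ∈ A`, `1 ≤ m ≤ (log X) ^ U`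
and all `s > 1` (with any number of prime factors) whose prime factors exceed `X ^ (1 / 7)`. -/
theorem result :
    (∀ δ : ℝ, 0 < δ → ∃ (c C K : ℝ) (U : ℕ), 0 < c ∧ ∀ X : ℕ, 3 ≤ X → ∀ A : Set ℕ,
      (∀ p ∈ A, p.Prime ∧ p ≤ X) → δ * X / Real.log X ≤ A.ncard →
      (exceptional X U c A).Finite ∧
        ((exceptional X U c A).ncard : ℝ) ≤ K * (Real.log X / Real.log (Real.log X)) ∧
        ∀ h : ℕ, 1 ≤ h → h ≤ 2 * X →
          (({p : ℕ | p ∈ A ∧ Diff X U (AlmostPrime X) h p}.ncard : ℕ) : ℝ) ≤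
            C * (Real.log (Real.log X) / Real.log X) * A.ncard) ∧
    (∀ (U : ℕ) (η : ℝ), 0 < η → ∃ (c : ℝ) (X₀ : ℕ), 0 < c ∧ ∀ X : ℕ, X₀ ≤ X → ∀ H : Set ℕ,
      (∀ h ∈ H, 1 ≤ h ∧ h ≤ 2 * X) → (H.ncard : ℝ) ≤ c * (Real.log X / Real.log (Real.log X)) →
      ∃ A : Set ℕ, (∀ p ∈ A, p.Prime ∧ p ≤ X) ∧
        (1 - η) * ({p : ℕ | p.Prime ∧ p ≤ X}.ncard : ℝ) ≤ (A.ncard : ℝ) ∧
        ∀ h ∈ H, ∀ p ∈ A, ¬ Diff X U (Rough X) h p) := by
  classical
  constructor
  · intro δ hδ
    obtain ⟨c, K, U, hc, hK, H⟩ := Pool.Agent.U475.PL.dense δ hδ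
    obtain ⟨C, hC, HC⟩ := Pool.Agent.U475.PL.upper_A Pool.Agent.U475.PL.UBS_thm Pool.Agent.U475.PL.VLB_thm U δ hδ
    refine ⟨c, C, K, U, hc, fun X hX A hA hcard => ?_⟩
    have hAfin : A.Finite := (Set.finite_Iic X).subset fun p hp => (hA p hp).2
    obtain ⟨B, rfl⟩ : ∃ B : Finset ℕ, A = (B : Set ℕ) := ⟨hAfin.toFinset, by simp⟩
    have hB : ∀ p ∈ B, p.Prime ∧ p ≤ X := fun p hp => hA p (mem_coe.2 hp)
    rw [Set.ncard_coe_finset] at hcard ⊢
    have key := H X hX B hB hcard
    have hfin : (exceptional X U c (B : Set ℕ)).Finite :=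
      (Set.finite_Iic (2 * X)).subset fun h hh => hh.2.1
    refine ⟨hfin, le_trans ?_ key, ?_⟩
    swap
    · intro h h1 h2
      refine le_trans ?_ (HC X hX B hB hcard (-(h : ℤ)) (by omega) (by
        have h3 : |(-(h : ℤ))| ≤ 2 * X := by
          rw [abs_neg, abs_of_nonneg (by omega)]
          omega
        exact_mod_cast h3))
      have h4 : {p : ℕ | p ∈ (B : Set ℕ) ∧ Diff X U (AlmostPrime X) h p} ⊆
          ((B.filter (fun p => Pool.Agent.U475.PL.Rep' X U (-(h : ℤ)) p (fun _ => True)) : Finset ℕ) : Set ℕ) := by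
        rintro p ⟨hp, m, s, g1, g2, ⟨⟨g3, g4⟩, -⟩, g5⟩
        rw [mem_coe, mem_filter]
        refine ⟨mem_coe.1 hp, m, s, g1, g2, g3, ?_, trivial, g4⟩
        have h6 : (-(h : ℤ) - p).natAbs = h + p := by omega
        rw [h6]
        exact g5
      have h5 := Set.ncard_le_ncard h4 (finite_toSet _)
      rw [Set.ncard_coe_finset] at h5
      exact_mod_cast h5
    have h0 := Set.ncard_le_ncard_of_injOn (s := exceptional X U c (B : Set ℕ))
        (t := (((Icc (-(2 * X : ℤ)) (2 * X)).filter (fun a : ℤ =>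
        ((B.filter (fun p => Pool.Agent.U475.PL.Rep' X U a p Pool.Agent.U475.PL.AP2)).card : ℝ) <
          c * (Real.log (Real.log X) / Real.log X) * B.card) : Finset ℤ) : Set ℤ))
        (fun n : ℕ => -(n : ℤ)) ?_ (fun n _ n' _ h => by
          have h' : -(n : ℤ) = -(n' : ℤ) := h
          omega) (finite_toSet _)
    · rw [Set.ncard_coe_finset] at h0
      exact_mod_cast h0
    rintro h ⟨h1, h2, h3⟩
    rw [mem_coe, mem_filter, mem_Icc]
    refine ⟨⟨by omega, by omega⟩, ?_⟩
    rw [Set.ncard_coe_finset] at h3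
    refine lt_of_le_of_lt ?_ h3
    have h4 : ((B.filter (fun p : ℕ => Pool.Agent.U475.PL.Rep' X U (-(h : ℤ)) p Pool.Agent.U475.PL.AP2) :
        Finset ℕ) : Set ℕ) ⊆ {p : ℕ | p ∈ (B : Set ℕ) ∧ Diff X U (AlmostPrime X) h p} := by
      intro p hp
      rw [mem_coe, mem_filter] at hp
      obtain ⟨hpB, m, s, hm, g2, g3, g1, g4, g5⟩ := hp
      have h7 : (-(h : ℤ) - p).natAbs = h + p := by omega
      rw [h7] at g1
      exact ⟨mem_coe.2 hpB, m, s, hm, g2, ⟨⟨g3, g5⟩, g4⟩, g1⟩
    have h5 := Set.ncard_le_ncard h4 ((finite_toSet B).subset fun p hp => hp.1)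
    rw [Set.ncard_coe_finset] at h5
    exact_mod_cast h5
  · intro U η hη
    obtain ⟨c, X₀, hc, H⟩ := Pool.Agent.U475.PL.sharp_thm U η hη
    refine ⟨c, X₀, hc, fun X hX S hS hcard => ?_⟩
    have hSfin : S.Finite := (Set.finite_Iic (2 * X)).subset fun h hh => (hS h hh).2
    obtain ⟨T, rfl⟩ : ∃ T : Finset ℕ, S = (T : Set ℕ) := ⟨hSfin.toFinset, by simp⟩
    rw [Set.ncard_coe_finset] at hcard
    obtain ⟨A, hA1, hA2, hA3⟩ := H X hX (T.image (fun h : ℕ => -(h : ℤ))) (by
      intro a ha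
      rw [mem_image] at ha
      obtain ⟨h, hh, rfl⟩ := ha
      have h1 := hS h (mem_coe.2 hh)
      refine ⟨by omega, ?_⟩
      have h2 : |(-(h : ℤ))| ≤ 2 * X := by
        rw [abs_neg, abs_of_nonneg (by omega)]
        omega
      exact_mod_cast h2) (by
      refine le_trans ?_ hcard
      exact_mod_cast Finset.card_image_le)
    refine ⟨(A : Set ℕ), fun p hp => hA1 p (mem_coe.1 hp), ?_, ?_⟩
    · rw [Set.ncard_coe_finset]
      have h2 : {p : ℕ | p.Prime ∧ p ≤ X} = (((Icc 1 X).filter Nat.Prime : Finset ℕ) : Set ℕ) := by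
        ext p
        rw [mem_coe, mem_filter, mem_Icc, Set.mem_setOf_eq]
        constructor
        · rintro ⟨h3, h4⟩
          exact ⟨⟨h3.one_le, h4⟩, h3⟩
        · rintro ⟨⟨-, h4⟩, h3⟩
          exact ⟨h3, h4⟩
      rw [h2, Set.ncard_coe_finset]
      exact hA2
    · intro h hh p hp hd
      refine hA3 (-(h : ℤ)) (mem_image.2 ⟨h, mem_coe.1 hh, rfl⟩) p (mem_coe.1 hp) ?_
      obtain ⟨m, s, g1, g2, ⟨g3, g4⟩, g5⟩ := hd
      refine ⟨m, s, g1, g2, g3, ?_, trivial, g4⟩
      have h6 : (-(h : ℤ) - p).natAbs = h + p := by omega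
      rw [h6]
      exact g5

end Pool.Agent.Results.MP_70e905_nt.DenseSetsSharpExceptions
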