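import Pool.Agent.U403.Dif.Count
import Pool.Agent.U403.Dif.Hit
import Pool.Agent.U403.Dif.Sum
import Pool.Agent.W25.UB.Final
import Pool.Agent.W150.UBC1a

/-!
# A quarter of the even differences of every finite set of integers are gaps between consecutive primes

Let `A` be an arbitrary finite set of integers. The difference of two elements of `A` can be the difference of two
primes infinitely often only if it is even. At least a quarter of all the pairs `x < y` of elements of `A` with
`y - x` even, up to an error with a power saving which does not depend on `A`, have the property that `y - x` is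
the gap between two consecutive primes, for at least `x ^ (1 - η)` primes up to `x`, for arbitrarily large `x`. The
proportion is a third if `A` misses a residue class modulo `3`. The same holds for the gaps between the primes
`≡ a (mod q)` (`q` even and squarefree) and the pairs whose difference is divisible by `q`.

Proof. By the coloured Maynard-Tao theorem with four classes of shifts of the library, a box of four large classes
of integers which together miss a residue class modulo `3` contains a good pair of elements of different classes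
(the classes can be thinned out such that the primes `p ≥ 5` are no obstruction). Of five classes, each of them
constant modulo `3`, four miss a residue class. Hence the graph of the bad pairs does not contain the complete
5-partite graph with large classes, and the theorem of Erdős and Stone (with a power saving) applies.
-/

set_option autoImplicit false

namespace Pool.Agent.Results.MP_70e905_nt.QuarterOfEvenDifferences

open Filter

/-- `d` is very often the difference of two consecutive primes the first of which is `≡ a (mod q)`: for every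
`η > 0` there are arbitrarily large real `x` such that at least `x ^ (1 - η)` indices `n` with `p_n ≤ x` and
`p_n ≡ a (mod q)` satisfy `p_{n+1} - p_n = d`. -/
def Gap (q a : ℕ) (d : ℤ) : Prop := ∀ η : ℝ, 0 < η → ∃ᶠ x : ℝ in atTop,
  x ^ (1 - η) ≤ ({n : ℕ | (Nat.nth Nat.Prime n : ℝ) ≤ x ∧ Nat.nth Nat.Prime n ≡ a [MOD q] ∧
    (Nat.nth Nat.Prime (n + 1) : ℤ) - Nat.nth Nat.Prime n = d}.ncard : ℝ)

/-- the pairs `x < y` of elements of `A` with `q ∣ y - x` -/
def pairs (q : ℕ) (A : Finset ℤ) : Set (ℤ × ℤ) := {z | z.1 ∈ A ∧ z.2 ∈ A ∧ z.1 < z.2 ∧ (q : ℤ) ∣ z.2 - z.1}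

/-- those pairs `x < y` of elements of `A` with `q ∣ y - x` for which `y - x` is very often the difference of two
consecutive primes, the first (and hence both) `≡ a (mod q)` -/
def good (q a : ℕ) (A : Finset ℤ) : Set (ℤ × ℤ) := {z ∈ pairs q A | Gap q a (z.2 - z.1)}

/-- **A quarter of the even differences of every finite set of integers.** Let `q` be even and squarefree and
`a` coprime to `q`. There are `C` and `δ > 0` such that in EVERY finite set `A` of integers at least
`|pairs| / 4 - C |A| ^ (2 - δ)` of the pairs `x < y` with `q ∣ y - x` are good, and at least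
`|pairs| / 3 - C |A| ^ (2 - δ)` if `3 ∣ q` or `A` misses a residue class modulo `3`. -/
theorem result (q a : ℕ) (hq : Squarefree q) (h2 : 2 ∣ q) (ha : a.Coprime q) : ∃ C δ : ℝ, 0 < δ ∧ ∀ A : Finset ℤ,
    1 / 4 * ((pairs q A).ncard : ℝ) - C * (A.card : ℝ) ^ (2 - δ) ≤ ((good q a A).ncard : ℝ) ∧
    ((3 ∣ q ∨ ∃ c : ℤ, ∀ x ∈ A, ¬ (3 : ℤ) ∣ x - c) →
      1 / 3 * ((pairs q A).ncard : ℝ) - C * (A.card : ℝ) ^ (2 - δ) ≤ ((good q a A).ncard : ℝ)) := by
  classical
  have hq0 : 0 < q := Nat.pos_of_ne_zero hq.ne_zero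
  have h1 : Pool.Agent.W25.UB.St_C1a := Pool.Agent.W150.UBC1a.main Pool.Agent.W25.UB.thmV
  obtain ⟨K5, hK5, H5⟩ := Pool.Agent.U403.Dif.hit5 h1 q a hq0 h2 hq ha
  obtain ⟨K4, hK4, H4⟩ := Pool.Agent.U403.Dif.hit4 h1 q a hq0 h2 hq ha
  obtain ⟨C5, δ5, hC5, hδ5, hδ51, M5⟩ := Pool.Agent.U403.Dif.many 5 K5 (1 / 4) (3 / 8) (by norm_num)
    Pool.Agent.U403.Dif.tur5
  obtain ⟨C4, δ4, hC4, hδ4, hδ41, M4⟩ := Pool.Agent.U403.Dif.many 4 K4 (1 / 3) (2 / 3) (by norm_num)
    Pool.Agent.U403.Dif.tur4
  have hP : ∀ A : Finset ℤ, ((pairs q A).ncard : ℝ) =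
      (((A ×ˢ A).filter (fun z => z.1 < z.2 ∧ (q : ℤ) ∣ z.2 - z.1)).card : ℝ) := by
    intro A
    rw [← Set.ncard_coe_finset]
    congr 2
    ext z
    simp only [pairs, Set.mem_ofPred_eq, Finset.coe_filter, Finset.mem_product]
    tauto
  have hG : ∀ A : Finset ℤ, ((good q a A).ncard : ℝ) =
      (((A ×ˢ A).filter (fun z => (z.1 < z.2 ∧ (q : ℤ) ∣ z.2 - z.1) ∧
        Pool.Agent.U403.Dif.GapM q a (z.2 - z.1))).card : ℝ) := by
    intro A
    rw [← Set.ncard_coe_finset]
    congr 2
    ext z
    simp only [good, pairs, Set.mem_ofPred_eq, Finset.coe_filter, Finset.mem_product]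
    have : Gap q a (z.2 - z.1) ↔ Pool.Agent.U403.Dif.GapM q a (z.2 - z.1) := Iff.rfl
    tauto
  have hr : ∀ (A : Finset ℤ) (ρ x : ℤ), x ∈ A.filter (fun x => x % q = ρ) → (q : ℤ) ∣ x - ρ := by
    intro A ρ x hx
    rw [Finset.mem_filter] at hx
    rw [← hx.2]
    exact Int.dvd_self_sub_emod
  have hrpow : ∀ (n : ℕ) (δ : ℝ), min δ5 δ4 ≤ δ → δ ≤ 1 → (n : ℝ) ^ (2 - δ) ≤ (n : ℝ) ^ (2 - min δ5 δ4) := by
    intro n δ hδ hδ1
    rcases Nat.eq_zero_or_pos n with h0 | h0
    · rw [h0, Nat.cast_zero, Real.zero_rpow (by linarith), Real.zero_rpow (by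
        have := min_le_left δ5 δ4
        linarith)]
    · exact Real.rpow_le_rpow_of_exponent_le (by exact_mod_cast h0) (by linarith)
  refine ⟨C5 * q + C4 * q, min δ5 δ4, lt_min hδ5 hδ4, fun A => ⟨?_, fun h3 => ?_⟩⟩
  · have key := Pool.Agent.U403.Dif.sum_classes q hq0 (1 / 4) C5 δ5 (by norm_num) hC5 hδ51
      (Pool.Agent.U403.Dif.GapM q a) A (fun ρ _ => M5 (Pool.Agent.U403.Dif.Rel (Pool.Agent.U403.Dif.GapM q a)) _
        (fun x y h => h.symm) (fun B hB hinj => by
          obtain ⟨g, g', i, i', hgg, hlt, hgap⟩ := H5 B ρ hinj (fun g i => hr A ρ _ (hB g i))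
          exact ⟨g, g', i, i', hgg, Or.inl ⟨hlt, hgap⟩⟩))
    rw [hP, hG]
    refine le_trans ?_ key
    have e1 : C5 * q * (A.card : ℝ) ^ (2 - δ5) ≤ C5 * q * (A.card : ℝ) ^ (2 - min δ5 δ4) :=
      mul_le_mul_of_nonneg_left (hrpow _ _ (min_le_left _ _) hδ51) (by positivity)
    have e2 : 0 ≤ C4 * q * (A.card : ℝ) ^ (2 - min δ5 δ4) := by positivity
    have e3 : (C5 * q + C4 * q) * (A.card : ℝ) ^ (2 - min δ5 δ4) =
        C5 * q * (A.card : ℝ) ^ (2 - min δ5 δ4) + C4 * q * (A.card : ℝ) ^ (2 - min δ5 δ4) := by ring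
    rw [e3]
    linarith
  · have key := Pool.Agent.U403.Dif.sum_classes q hq0 (1 / 3) C4 δ4 (by norm_num) hC4 hδ41
      (Pool.Agent.U403.Dif.GapM q a) A (fun ρ _ => M4 (Pool.Agent.U403.Dif.Rel (Pool.Agent.U403.Dif.GapM q a)) _
        (fun x y h => h.symm) (fun B hB hinj => by
          obtain ⟨g, g', i, i', hgg, hlt, hgap⟩ := H4 B ρ hinj (fun g i => hr A ρ _ (hB g i)) (by
            rcases h3 with h3 | ⟨c, hc⟩
            · exact Or.inl h3
            · exact Or.inr ⟨c, fun g i => hc _ (Finset.mem_filter.1 (hB g i)).1⟩)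
          exact ⟨g, g', i, i', hgg, Or.inl ⟨hlt, hgap⟩⟩))
    rw [hP, hG]
    refine le_trans ?_ key
    have e1 : C4 * q * (A.card : ℝ) ^ (2 - δ4) ≤ C4 * q * (A.card : ℝ) ^ (2 - min δ5 δ4) :=
      mul_le_mul_of_nonneg_left (hrpow _ _ (min_le_right _ _) hδ41) (by positivity)
    have e2 : 0 ≤ C5 * q * (A.card : ℝ) ^ (2 - min δ5 δ4) := by positivity
    have e3 : (C5 * q + C4 * q) * (A.card : ℝ) ^ (2 - min δ5 δ4) =
        C5 * q * (A.card : ℝ) ^ (2 - min δ5 δ4) + C4 * q * (A.card : ℝ) ^ (2 - min δ5 δ4) := by ring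
    rw [e3]
    linarith

end Pool.Agent.Results.MP_70e905_nt.QuarterOfEvenDifferences
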