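import Pool.Agent.W142.TB.Fin
import Pool.Agent.W473.UBCB
import Pool.Agent.W25.UB.FinalT
import Pool.Agent.W25.UB.Final
import Pool.Agent.W150.UBC1a
import Pool.Agent.U455.TG

/-!
# Every large multiple of 12 is a sum of three differences of primes which occur infinitely often

`Gap J q a m d`: the number `d` is a multiple of `m` and a difference `p_(n+j) - p_n` with `1 ≤ j ≤ J` and
`p_n ≡ a (mod q)`, for at least `x ^ (1 - η)` primes `p_n ≤ x`, for every `η > 0` and arbitrarily large `x`.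

There is an absolute constant `J` such that for all even `m`, all squarefree divisors `q` of `m` and all `a`
coprime to `q` the gaps `d` with `Gap J q a m d` satisfy:

* every sufficiently large multiple of `6 m` is a sum `d₁ + d₂ + d₃` of three gaps (for `m = 2`, `q = 1`: every
  large multiple of `12`);
* every multiple of `6 m` is `d₁ + d₂ - d₃` with three gaps, in infinitely many ways.

Proof. Divide by `m`; let `P` be a highly divisible number and `S` the set of the residues modulo `P` of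
infinitely many gaps. By the coloured Maynard-Tao theorem with four classes of shifts (starting files), for four
residues in any order (which do not cover all residues modulo `3`, if `3` does not divide `m`) some
difference of a later and an earlier one is in `S`. If `α, β ∈ S`, `α ≡ β (mod 3)`, but `β - α ∉ S`, then the
four classes of shifts `A₁, A₂, x - A₂, x - A₁`, where `A₁ ≡ α`, `A₂ ≡ β` are sets of gaps, contain
a gap, and this gives `x = d₁ + d₂ + d₃`. If there are no such `α, β` then the part of `S` divisible by `3` is a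
group which contains `3`, `6` or `9`. If it contains `3` or `6`, then `x - d₁` is divisible by `P` for some gap
`d₁`, and the theorem that more than one half of all multiples of `P` are gaps (starting files, `MoreThanHalf`)
gives the rest; in the last case there are `α ≡ - β (mod 3)` as above, not divisible by `3`.
-/

set_option autoImplicit false

namespace Pool.Agent.Results.MP_70e905_nt.ThreeGaps

open Finset Filter Pool.Agent.H947R3.GM Pool.Agent.W59.GB Pool.Agent.U455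

/-- `d` is a multiple of `m` and a difference `p_(n+j) - p_n` with `1 ≤ j ≤ J` and `p_n ≡ a (mod q)`, for at
least `x ^ (1 - η)` primes `p_n ≤ x`, for every `η > 0` and arbitrarily large `x`. -/
def Gap (J q a m d : ℕ) : Prop :=
  m ∣ d ∧ ∃ j : ℕ, 1 ≤ j ∧ j ≤ J ∧ ∀ η : ℝ, 0 < η → ∃ᶠ x : ℝ in atTop,
    x ^ (1 - η) ≤ ({n : ℕ | (Nat.nth Nat.Prime n : ℝ) ≤ x ∧ Nat.nth Nat.Prime n ≡ a [MOD q] ∧
      Nat.nth Nat.Prime (n + j) = Nat.nth Nat.Prime n + d}.ncard : ℝ)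

/-- the coloured theorem for the multiples of `m` -/
theorem c4 (J q a m : ℕ) (hJ : 1 ≤ J) (hm : 0 < m) (hq2 : 2 ∣ q) (hqm : q ∣ m) (hsq : Squarefree q)
    (ha : Nat.Coprime a q) : ∃ K : ℕ, TG.C4 {k | Gap J q a m (m * k)} m K := by
  obtain ⟨l, rfl⟩ := hqm
  have hq : 0 < q := Nat.pos_of_mul_pos_right hm
  have hl : 0 < l := Nat.pos_of_mul_pos_left hm
  obtain ⟨K, hK, hH⟩ := Pool.Agent.W150.UBC1a.main Pool.Agent.W25.UB.thmV q a hq hq2 hsq ha
  refine ⟨K, fun H hadm => ?_⟩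
  obtain ⟨hinj, hloc⟩ := hadm
  have hadm' : AdmN q (fun g i => l * H g i) := by
    refine ⟨?_, ?_⟩
    · intro x y hxy
      exact hinj (Nat.eq_of_mul_eq_mul_left hl hxy)
    · intro p hp hpN
      by_cases hpl : p ∣ l
      · refine ⟨1, fun g i h => ?_⟩
        have h3 : (p : ℤ) ∣ ((l * H g i : ℕ) : ℤ) :=
          Int.natCast_dvd_natCast.2 (Dvd.dvd.mul_right hpl _)
        have h4 : (p : ℤ) ∣ 1 := (Int.dvd_add_left h3).1 h
        have h5 : p ∣ 1 := by exact_mod_cast h4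
        exact hp.one_lt.ne' (Nat.dvd_one.1 h5)
      · have hpNl : ¬ p ∣ q * l := fun h => (hp.dvd_mul.1 h).elim hpN hpl
        obtain ⟨n, hn⟩ := hloc p hp hpNl
        refine ⟨l * n, fun g i h => ?_⟩
        have h3 : (l : ℤ) * n + ((l * H g i : ℕ) : ℤ) = l * (n + H g i) := by
          push_cast
          ring
        rw [h3] at h
        rcases (Nat.prime_iff_prime_int.1 hp).dvd_mul.1 h with h4 | h4
        · exact hpl (by exact_mod_cast h4)
        · exact hn g i h4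
  obtain ⟨g, g', i, i', hgg, hlt, hmem⟩ := hH _ hadm'
  refine ⟨g, g', i, i', hgg, Nat.lt_of_mul_lt_mul_left hlt, dvd_mul_right _ _, 1, le_rfl, hJ,
    fun η hη => ?_⟩
  have h3 := nthB hmem η hη
  have e : q * (l * H g' i' - l * H g i) = q * l * (H g' i' - H g i) := by
    rw [← Nat.mul_sub, Nat.mul_assoc]
  rw [e] at h3
  exact h3

theorem result : ∃ J : ℕ, ∀ q a m : ℕ, Squarefree q → Nat.Coprime a q → 0 < m → 2 ∣ m → q ∣ m →
    (∃ L : ℕ, ∀ x : ℕ, L ≤ x → 6 * m ∣ x → ∃ d₁ d₂ d₃ : ℕ,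
      Gap J q a m d₁ ∧ Gap J q a m d₂ ∧ Gap J q a m d₃ ∧ x = d₁ + d₂ + d₃) ∧
    (∀ x : ℕ, 6 * m ∣ x → ∀ R : ℕ, ∃ d₁ d₂ d₃ : ℕ,
      Gap J q a m d₁ ∧ Gap J q a m d₂ ∧ Gap J q a m d₃ ∧ R < d₁ ∧ x + d₃ = d₁ + d₂) := by
  obtain ⟨δ, hδ, J, HJ⟩ := Pool.Agent.W142.TB.hfB' (Pool.Agent.W473.UBCB.main Pool.Agent.W25.UB.thmVG)
  -- even `q`
  have heven : ∀ q a m : ℕ, Squarefree q → Nat.Coprime a q → 0 < m → 2 ∣ q → q ∣ m →
      (∃ L : ℕ, ∀ x : ℕ, L ≤ x → 6 * m ∣ x → ∃ d₁ d₂ d₃ : ℕ,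
        Gap (J + 1) q a m d₁ ∧ Gap (J + 1) q a m d₂ ∧ Gap (J + 1) q a m d₃ ∧ x = d₁ + d₂ + d₃) ∧
      (∀ x : ℕ, 6 * m ∣ x → ∀ R : ℕ, ∃ d₁ d₂ d₃ : ℕ,
        Gap (J + 1) q a m d₁ ∧ Gap (J + 1) q a m d₂ ∧ Gap (J + 1) q a m d₃ ∧ R < d₁ ∧
          x + d₃ = d₁ + d₂) := by
    intro q a m hsq ha hm h2 hqm
    obtain ⟨K, hK⟩ := c4 (J + 1) q a m (by omega) hm h2 hqm hsq ha
    obtain ⟨M, hM, H1⟩ := HJ q a (Nat.pos_of_ne_zero hsq.ne_zero) hsq ha
    have h := TG.main' (dvd_trans h2 hqm) hK (1 / 2 + δ) (by linarith) M hM (fun P hP hMP => by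
      obtain ⟨L, HL⟩ := H1 (m * P) (Nat.mul_pos hm hP) (hMP.mul_left m)
      refine ⟨L, fun T hT u => (HL T hT u).trans ?_⟩
      rw [Nat.cast_le]
      refine Set.ncard_le_ncard ?_ ((Set.finite_Ioc u (u + T)).subset fun k hk => ⟨hk.1, hk.2.1⟩)
      rintro k ⟨hk1, hk2, j, hj1, hj2, hk3⟩
      refine ⟨hk1, hk2, dvd_mul_right _ _, j, hj1, by omega, fun η hη => ?_⟩
      have h4 := hk3 η hη
      rw [← Nat.mul_assoc]
      exact h4)
    obtain ⟨⟨L, hL⟩, hdif⟩ := h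
    constructor
    · refine ⟨m * L, fun x hx hd => ?_⟩
      obtain ⟨t, rfl⟩ := hd
      have e : 6 * m * t = m * (6 * t) := by ring
      rw [e] at hx ⊢
      obtain ⟨g₁, g₂, g₃, h1, h2, h3, h4⟩ := hL (6 * t) (Nat.le_of_mul_le_mul_left hx hm)
        (dvd_mul_right _ _)
      exact ⟨_, _, _, h1, h2, h3, by rw [h4]; ring⟩
    · intro x hd R
      obtain ⟨t, rfl⟩ := hd
      have e : 6 * m * t = m * (6 * t) := by ring
      rw [e]
      obtain ⟨g₁, g₂, g₃, h1, h2, h3, h4, h5⟩ := hdif (6 * t) (dvd_mul_right _ _) R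
      refine ⟨_, _, _, h1, h2, h3, lt_of_lt_of_le h4 (Nat.le_mul_of_pos_left _ hm), ?_⟩
      rw [← Nat.mul_add, h5, Nat.mul_add]
  refine ⟨J + 1, fun q a m hsq ha hm h2m hqm => ?_⟩
  obtain ⟨q', a', h2, hsq', ha', hqm', hred⟩ : ∃ q' a' : ℕ, 2 ∣ q' ∧ Squarefree q' ∧
      a'.Coprime q' ∧ q' ∣ m ∧ ∀ n : ℕ, n ≡ a' [MOD q'] → n ≡ a [MOD q] := by
    by_cases h2 : 2 ∣ q
    · exact ⟨q, a, h2, hsq, ha, hqm, fun n hn => hn⟩
    · have hc2 : Nat.Coprime 2 q := (Nat.prime_two.coprime_iff_not_dvd).2 h2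
      obtain ⟨b, hb2, hbq⟩ := Nat.chineseRemainder hc2 1 a
      refine ⟨2 * q, b, dvd_mul_right 2 q, ?_, ?_, hc2.mul_dvd_of_dvd_of_dvd h2m hqm, fun n hn => ?_⟩
      · exact (Nat.squarefree_mul hc2).2 ⟨Nat.prime_two.squarefree, hsq⟩
      · refine Nat.Coprime.mul_right ?_ ?_
        · have h3 := hb2.gcd_eq
          rw [Nat.gcd_one_left] at h3
          exact h3
        · have h3 := hbq.gcd_eq
          rw [Nat.Coprime, h3]
          exact ha
      · exact (hn.of_mul_left 2).trans hbq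
  have hmono : ∀ d, Gap (J + 1) q' a' m d → Gap (J + 1) q a m d := by
    rintro d ⟨h1, j, hj1, hj2, h3⟩
    refine ⟨h1, j, hj1, hj2, fun η hη => (h3 η hη).mono fun x hx => hx.trans ?_⟩
    rw [Nat.cast_le]
    refine Set.ncard_le_ncard ?_ ?_
    · rintro n ⟨hn1, hn2, hn3⟩
      exact ⟨hn1, hred _ hn2, hn3⟩
    · apply (Set.finite_Iic ⌊x⌋₊).subset
      rintro n ⟨hn, -⟩
      rw [Set.mem_Iic]
      refine Nat.le_floor (le_trans ?_ hn)
      exact_mod_cast (Nat.nth_strictMono Nat.infinite_setOfPred_prime).le_apply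
  obtain ⟨⟨L, hL⟩, hdif⟩ := heven q' a' m hsq' ha' hm h2 hqm'
  constructor
  · refine ⟨L, fun x hx hd => ?_⟩
    obtain ⟨d₁, d₂, d₃, h1, h2, h3, h4⟩ := hL x hx hd
    exact ⟨d₁, d₂, d₃, hmono _ h1, hmono _ h2, hmono _ h3, h4⟩
  · intro x hd R
    obtain ⟨d₁, d₂, d₃, h1, h2, h3, h4⟩ := hdif x hd R
    exact ⟨d₁, d₂, d₃, hmono _ h1, hmono _ h2, hmono _ h3, h4⟩

end Pool.Agent.Results.MP_70e905_nt.ThreeGaps
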